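import Pool.Agent.Y6.Stm6
import Pool.Agent.Y710.NS.Conv3

/-!
From the physical side to the Fourier side for the Navier-Stokes equations restricted to a set of
modes (job CONVQ of helper6).
-/

open MeasureTheory Set Filter Topology
open scoped ContDiff

set_option autoImplicit false

namespace Pool.Agent.Y419.NS6

open Pool.Agent.H356R3.NS hiding K sq
open Pool.Agent.Y6 Pool.Agent.Y710.NS.Cnv

lemma fc_fa (v : R3 → R3) : fc v = fa v := by
  funext k i
  unfold fc fa H459R3.NS.fr H459R3.NS.fc H459R3.NS.cube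
  congr 1
  funext x
  rw [mul_comm]
  congr 1
  unfold H459R3.NS.ee H459R3.NS.ph
  congr 1
  push_cast
  rw [← mul_neg, ← Finset.sum_neg_distrib]
  congr 1
  refine Finset.sum_congr rfl fun j _ => ?_
  simp

/-- Solutions of the equations restricted to the modes in `Q`, on `[0, T)`. -/
structure LSol (Q : Set K) (ν T : ℝ) (u : ℝ → R3 → R3) (p : ℝ → R3 → ℝ) : Prop where
  smooth_u : ContDiffOn ℝ ∞ (fun z : ℝ × R3 => u z.1 z.2) (Ico 0 T ×ˢ univ)
  smooth_p : ContDiffOn ℝ ∞ (fun z : ℝ × R3 => p z.1 z.2) (Ico 0 T ×ˢ univ)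
  per_u : ∀ t ∈ Ico 0 T, H459R3.NS.Per (u t)
  per_p : ∀ t ∈ Ico 0 T, H459R3.NS.Per (p t)
  divfree : ∀ t ∈ Ico 0 T, ∀ x, ∑ i, H459R3.NS.pd i (fun y => u t y i) x = 0
  modes : ∀ t ∈ Ico 0 T, ∀ k ∉ Q, fa (u t) k = 0
  momentum : ∀ t ∈ Ioo 0 T, ∀ k ∈ Q, ∀ i, H459R3.NS.fr (fun x =>
    H459R3.NS.dt (fun s y => u s y i) t x + H459R3.NS.conv (fun i y => u t y i) i x
      - ν * H459R3.NS.lap (fun y => u t y i) x + H459R3.NS.pd i (p t) x) k = 0

lemma fr_lin4 {f g h q : R3 → ℝ} (hf : Continuous f) (hg : Continuous g) (hh : Continuous h)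
    (hq : Continuous q) (ν : ℝ) (k : K) :
    H459R3.NS.fr (fun x => f x + g x - ν * h x + q x) k
      = H459R3.NS.fr f k + H459R3.NS.fr g k - ν * H459R3.NS.fr h k + H459R3.NS.fr q k := by
  unfold H459R3.NS.fr H459R3.NS.fc
  have c : ∀ {q : R3 → ℝ}, Continuous q →
      IntegrableOn (fun x => H459R3.NS.ee (-k) x * (q x : ℂ)) H459R3.NS.cube :=
    fun hq => H459R3.NS.integrableOn_cube
      ((H459R3.NS.ee_continuous _).mul (Complex.continuous_ofReal.comp hq))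
  have i12 : IntegrableOn (fun x => H459R3.NS.ee (-k) x * (f x : ℂ)
      + H459R3.NS.ee (-k) x * (g x : ℂ)) H459R3.NS.cube := (c hf).add (c hg)
  have i3 : IntegrableOn (fun x => (ν : ℂ) * (H459R3.NS.ee (-k) x * (h x : ℂ))) H459R3.NS.cube :=
    (c hh).const_mul _
  have i123 : IntegrableOn (fun x => (H459R3.NS.ee (-k) x * (f x : ℂ)
      + H459R3.NS.ee (-k) x * (g x : ℂ)) - (ν : ℂ) * (H459R3.NS.ee (-k) x * (h x : ℂ)))
      H459R3.NS.cube := i12.sub i3
  rw [← integral_const_mul, ← integral_add (c hf) (c hg), ← integral_sub i12 i3,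
    ← integral_add i123 (c hq)]
  congr 1
  funext x
  push_cast
  ring

section

variable {Q : Set K} {ν T : ℝ} {u : ℝ → R3 → R3} {p : ℝ → R3 → ℝ}

lemma LSol.smooth_c (h : LSol Q ν T u p) (i : Fin 3) :
    ContDiffOn ℝ ∞ (fun z : ℝ × R3 => u z.1 z.2 i) (Ico 0 T ×ˢ univ) :=
  (contDiffOn_pi.1 h.smooth_u) i

lemma LSol.sp (h : LSol Q ν T u p) {t : ℝ} (ht : t ∈ Ico 0 T) (i : Fin 3) :
    H459R3.NS.SP (fun y => u t y i) where
  smooth := H459R3.NS.contDiff_slice (f := fun t y => u t y i) (h.smooth_c i) ht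
  per := fun j x => by simp only [h.per_u t ht j x]

lemma LSol.sp_p (h : LSol Q ν T u p) {t : ℝ} (ht : t ∈ Ico 0 T) : H459R3.NS.SP (p t) where
  smooth := H459R3.NS.contDiff_slice h.smooth_p ht
  per := h.per_p t ht

lemma ode_rawQ (h : LSol Q ν T u p) {t : ℝ} (ht : t ∈ Ioo 0 T) {k : K} (hk : k ∈ Q) (i : Fin 3) :
    HasDerivAt (fun s => H459R3.NS.fr (fun x => u s x i) k)
      (ν * (-(((2 * Real.pi) ^ 2 * ∑ j, (k j : ℝ) ^ 2 : ℝ) : ℂ) * H459R3.NS.fr (fun x => u t x i) k)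
        - (∑ j, (2 * Real.pi * Complex.I * (k j : ℂ)) *
            ∑' l, H459R3.NS.fr (fun x => u t x j) l * H459R3.NS.fr (fun x => u t x i) (k - l))
        - (2 * Real.pi * Complex.I * (k i : ℂ)) * H459R3.NS.fr (p t) k) t := by
  have hI : t ∈ Ico 0 T := ⟨ht.1.le, ht.2⟩
  have h1 := fr_deriv (f := fun s x => u s x i) (h.smooth_c i) k ht
  refine h1.congr_deriv ?_
  have hsp : ∀ i, H459R3.NS.SP (fun y => u t y i) := fun i => h.sp hI i
  have hm := h.momentum t ht k hk i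
  rw [fr_lin4 (H459R3.NS.contDiff_dt (f := fun s y => u s y i) (h.smooth_c i) ht).continuous
    (H459R3.NS.sp_conv (v := fun i y => u t y i) hsp i).cont (hsp i).lap.cont
    ((h.sp_p hI).pd i).cont, fr_lap (hsp i), fr_conv (v := fun i y => u t y i) hsp (h.divfree t hI),
    H459R3.NS.fr_pd (h.sp_p hI), H459R3.NS.D] at hm
  linear_combination hm

/-- Uniform decay. -/
lemma fa_unifQ (h : LSol Q ν T u p) {T' : ℝ} (hT : T' < T) (n : ℕ) :
    ∃ C, ∀ t ∈ Icc 0 T', ∀ k, pw k ^ n * ‖fa (u t) k‖ ≤ C := by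
  choose A hA using fun i => unif_pow (f := fun s x => u s x i) (h.smooth_c i) (fun t ht => h.sp ht i) hT 0
  choose B hB using fun i => unif_pow (f := fun s x => u s x i) (h.smooth_c i) (fun t ht => h.sp ht i) hT n
  refine ⟨4 ^ n * ∑ i, (A i + B i), fun t ht k => ?_⟩
  have h1 : ‖fa (u t) k‖ ≤ ∑ i, ‖fa (u t) k i‖ := norm_le_sum _
  have hp := pw_pow_le k n
  have hp0 : 0 ≤ pw k ^ n := pow_nonneg (pw_pos k).le n
  calc pw k ^ n * ‖fa (u t) k‖ ≤ pw k ^ n * ∑ i, ‖fa (u t) k i‖ := mul_le_mul_of_nonneg_left h1 hp0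
    _ ≤ (4 ^ n * (1 + (H459R3.NS.N k : ℝ) ^ n)) * ∑ i, ‖fa (u t) k i‖ :=
        mul_le_mul_of_nonneg_right hp (Finset.sum_nonneg fun _ _ => norm_nonneg _)
    _ = 4 ^ n * ∑ i, ((H459R3.NS.N k : ℝ) ^ 0 * ‖fa (u t) k i‖ + (H459R3.NS.N k : ℝ) ^ n * ‖fa (u t) k i‖) := by
        rw [mul_assoc, Finset.mul_sum]
        congr 1
        refine Finset.sum_congr rfl fun i _ => ?_
        ring
    _ ≤ 4 ^ n * ∑ i, (A i + B i) := by
        refine mul_le_mul_of_nonneg_left (Finset.sum_le_sum fun i _ => ?_) (by positivity)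
        exact add_le_add (hA i t ht k) (hB i t ht k)

lemma fa_divQ (h : LSol Q ν T u p) {t : ℝ} (ht : t ∈ Ico 0 T) (k : K) : dt k (fa (u t) k) = 0 :=
  H459R3.NS.fr_div (v := fun i x => u t x i) (fun i => h.sp ht i) (h.divfree t ht) k

/-- The evolution of the Fourier coefficients. -/
lemma fa_odeQ (h : LSol Q ν T u p) (h0 : (0 : K) ∉ Q) {t : ℝ} (ht : t ∈ Ioo 0 T) {k : K}
    (hkQ : k ∈ Q) :
    HasDerivAt (fun s => fa (u s) k) (RH (4 * Real.pi ^ 2 * ν) (fa (u t)) k) t := by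
  have hI : t ∈ Ico 0 T := ⟨ht.1.le, ht.2⟩
  have hk : k ≠ 0 := fun e => h0 (e ▸ hkQ)
  set a := fa (u t) with ha
  set P := H459R3.NS.fr (p t) k with hP
  have raw : ∀ i, HasDerivAt (fun s => fa (u s) k i)
      (ν * (-(((2 * Real.pi) ^ 2 * ∑ j, (k j : ℝ) ^ 2 : ℝ) : ℂ) * a k i)
        - (∑ j, (2 * Real.pi * Complex.I * (k j : ℂ)) * cv a a k j i)
        - (2 * Real.pi * Complex.I * (k i : ℂ)) * P) t := fun i => ode_rawQ h ht hkQ i
  have hq : ∑ j, (k j : ℝ) ^ 2 = qk k := rfl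
  rw [hq] at raw
  refine hasDerivAt_pi.2 fun i => (raw i).congr_deriv ?_
  have hz : HasDerivAt (fun s => ∑ i, (k i : ℂ) * fa (u s) k i)
      (∑ i, (k i : ℂ) * (ν * (-(((2 * Real.pi) ^ 2 * qk k : ℝ) : ℂ) * a k i)
      - (∑ j, (2 * Real.pi * Complex.I * (k j : ℂ)) * cv a a k j i)
      - (2 * Real.pi * Complex.I * (k i : ℂ)) * P)) t :=
    HasDerivAt.fun_sum fun i _ => (raw i).const_mul _
  have hz' : HasDerivAt (fun s => ∑ i, (k i : ℂ) * fa (u s) k i) 0 t := by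
    refine (hasDerivAt_const t (0 : ℂ)).congr_of_eventuallyEq ?_
    filter_upwards [Ioo_mem_nhds ht.1 ht.2] with s hs
    exact fa_divQ h ⟨hs.1.le, hs.2⟩ k
  have e0 := hz.unique hz'
  have hd := fa_divQ h hI k
  rw [← ha] at hd
  have e1 : ∑ i, (k i : ℂ) * ((∑ j, (2 * Real.pi * Complex.I * (k j : ℂ)) * cv a a k j i)
    + (2 * Real.pi * Complex.I * (k i : ℂ)) * P) = 0 := by
    have e2 : ∑ i, (k i : ℂ) * (ν * (-(((2 * Real.pi) ^ 2 * qk k : ℝ) : ℂ) * a k i)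
      - (∑ j, (2 * Real.pi * Complex.I * (k j : ℂ)) * cv a a k j i)
      - (2 * Real.pi * Complex.I * (k i : ℂ)) * P)
      = (ν * (-(((2 * Real.pi) ^ 2 * qk k : ℝ) : ℂ))) * dt k (a k)
        - ∑ i, (k i : ℂ) * ((∑ j, (2 * Real.pi * Complex.I * (k j : ℂ)) * cv a a k j i)
    + (2 * Real.pi * Complex.I * (k i : ℂ)) * P) := by
      unfold dt
      rw [Finset.mul_sum, ← Finset.sum_sub_distrib]
      exact Finset.sum_congr rfl fun i _ => by ring
    rw [e2, hd, mul_zero, zero_sub, neg_eq_zero] at e0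
    exact e0
  have e3 := elim hk P e1 i
  unfold RH
  rw [Pi.add_apply, Pi.smul_apply, ← e3, Complex.real_smul]
  push_cast
  ring

lemma fa_contQ (h : LSol Q ν T u p) (k : K) : ContinuousOn (fun s => fa (u s) k) (Ico 0 T) :=
  continuousOn_pi.2 fun i => fr_cont (f := fun s x => u s x i) (h.smooth_c i) k

lemma tsol_of (h : LSol Q ν T u p) (h0 : (0 : K) ∉ Q) :
    TSol (4 * Real.pi ^ 2 * ν) T Q (fun t => fa (u t)) := by
  refine ⟨?_, ?_, ?_, ?_, ?_⟩
  · intro t ht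
    refine ⟨?_, ?_, ?_, h.modes t ht 0 h0⟩
    · intro n
      obtain ⟨C, hC⟩ := fa_unifQ h ht.2 n
      exact ⟨C, fun k => hC t ⟨ht.1, le_rfl⟩ k⟩
    · intro k i
      exact fr_conj _ _
    · exact fun k => fa_divQ h ht k
  · intro t ht k hk
    exact h.modes t ht k hk
  · intro T' hT n
    exact fa_unifQ h hT n
  · exact fun k => fa_contQ h k
  · exact fun t ht k hk => fa_odeQ h h0 ht hk

end

theorem t_convQ : St_convQ := by
  intro ν Q T v u p hν hQ h0 h T0 hT0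
  have hsub : ∀ t ∈ Ico 0 T0, t ∈ tI T := by
    intro t ht
    refine ⟨ht.1, lt_of_lt_of_le ?_ hT0⟩
    exact_mod_cast ht.2
  have hL : LSol Q ν T0 u p := by
    refine ⟨?_, ?_, ?_, ?_, ?_, ?_, ?_⟩
    · exact h.smooth_u.mono (prod_mono (fun t ht => hsub t ht) subset_rfl)
    · exact h.smooth_p.mono (prod_mono (fun t ht => hsub t ht) subset_rfl)
    · exact fun t ht i x => h.periodic_u t (hsub t ht) x i
    · exact fun t ht i x => h.periodic_p t (hsub t ht) x i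
    · exact fun t ht x => h.divFree t (hsub t ht) x
    · intro t ht k hk
      rw [← fc_fa]
      exact h.modes t (hsub t ht) k hk
    · intro t ht k hk i
      have h1 := h.momentum t (hsub t ⟨ht.1.le, ht.2⟩) k hk
      rw [fc_fa] at h1
      have h2 := congrFun h1 i
      have hn : tI T ∈ 𝓝 t := by
        refine Filter.mem_of_superset (Ioo_mem_nhds ht.1 ht.2) fun s hs => ?_
        exact hsub s ⟨hs.1.le, hs.2⟩
      have h3 : ∀ x, derivWithin (fun s => u s x i) (tI T) t = H459R3.NS.dt (fun s y => u s y i) t x :=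
        fun x => derivWithin_of_mem_nhds hn
      unfold fa at h2
      simp only [h3] at h2
      exact h2
  have h2 := tsol_of hL h0
  have h3 : (fun t => fc (u t)) = fun t => fa (u t) := funext fun t => fc_fa _
  rw [h3]
  exact h2

end Pool.Agent.Y419.NS6
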