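import Pool.Agent.Y6.Stm6
import Pool.Agent.Y154.NS.Phys

/-!
From the Fourier side to the physical side on `[0, T)`, part 1: a smooth time change.
-/

open MeasureTheory Set Filter Topology
open scoped ENNReal NNReal ContDiff ComplexConjugate

set_option autoImplicit false

namespace Pool.Agent.Y419.NS6

open Pool.Agent.H356R3.NS hiding K sq
open Pool.Agent.Y6 Pool.Agent.Y154.NS

/-! ### Multiplication by smooth functions of time -/

lemma RD.tmul {c : SFam} (hc : RD c) {ψ : ℝ → ℝ} {M : ℝ} (hM : ∀ t, ‖ψ t‖ ≤ M) :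
    RD (fun k t => (ψ t : ℂ) * c k t) := by
  intro m
  obtain ⟨b, hb, h⟩ := hc m
  refine ⟨fun k => M * b k, hb.mul_left M, fun k t => ?_⟩
  have h1 := h k t
  have hp : 0 ≤ pw k ^ m * ‖c k t‖ := mul_nonneg (pow_pos (pw_pos k) m).le (norm_nonneg _)
  have hM0 : 0 ≤ M := (norm_nonneg _).trans (hM t)
  calc pw k ^ m * ‖(ψ t : ℂ) * c k t‖ = ‖ψ t‖ * (pw k ^ m * ‖c k t‖) := by
        rw [norm_mul, Complex.norm_real]; ring
    _ ≤ M * b k := mul_le_mul (hM t) h1 hp hM0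

lemma bdd_of {ψ : ℝ → ℝ} (h1 : ContDiff ℝ ∞ ψ) (h2 : HasCompactSupport ψ) :
    ∃ M, ∀ t, ‖ψ t‖ ≤ M := h2.exists_bound_of_continuous h1.continuous

lemma TT.tmul {n : ℕ} : ∀ {ψ : ℝ → ℝ}, ContDiff ℝ ∞ ψ → HasCompactSupport ψ → ∀ {c : SFam},
    TT n c → TT n (fun k t => (ψ t : ℂ) * c k t) := by
  induction n with
  | zero =>
    intro ψ h1 h2 c hc
    obtain ⟨M, hM⟩ := bdd_of h1 h2
    exact ⟨RD.tmul hc.1 hM, fun k => (Complex.continuous_ofReal.comp h1.continuous).mul (hc.2 k)⟩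
  | succ n ih =>
    intro ψ h1 h2 c hc
    have hcp := hc.pred
    obtain ⟨g1, g2, c', g3, g4⟩ := hc
    obtain ⟨M, hM⟩ := bdd_of h1 h2
    have hd : ContDiff ℝ ∞ (deriv ψ) := by
      have := h1.iterate_deriv 1
      simpa using this
    refine ⟨RD.tmul g1 hM, fun k => (Complex.continuous_ofReal.comp h1.continuous).mul (g2 k),
      fun k t => ((deriv ψ t : ℝ) : ℂ) * c k t + ((ψ t : ℝ) : ℂ) * c' k t, ?_, ?_⟩
    · intro k t ht
      have e1 : HasDerivAt ψ (deriv ψ t) t :=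
        (h1.differentiable (by simp) t).hasDerivAt
      exact (e1.ofReal_comp).mul (g3 k t ht)
    · exact (ih hd h2.deriv hcp).add (ih h1 h2 g4)

/-! ### Fourier side solutions with a changed time -/

/-- Fourier side solutions with a time change. -/
structure PSol (c : ℝ) (Q : Set K) (ψ : ℝ → ℝ) (u : K → ℝ → C3) : Prop where
  cf : ∀ k, Continuous (u k)
  zero : ∀ k, k ∉ Q → ∀ t, u k t = 0
  sym : ∀ t, Sym (fun k => u k t)
  div : ∀ k t, dt k (u k t) = 0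
  rd : ∀ m : ℕ, ∃ C : ℝ, ∀ k t, pw k ^ m * ‖u k t‖ ≤ C
  ode : ∀ k ∈ Q, ∀ t, 0 < t → HasDerivAt (u k) (ψ t • RH c (fun k => u k t) k) t

lemma p_rd {c : ℝ} {Q : Set K} {ψ : ℝ → ℝ} {u : K → ℝ → C3}
    (h : PSol c Q ψ u) (i : Fin 3) : RD (cf' u i) := by
  intro m
  obtain ⟨C, hC⟩ := h.rd (m + 4)
  refine ⟨fun k => C * (1 / pw k) ^ 4, (summ_of_bound m (fun k => hC k 0)).1, fun k t => ?_⟩
  refine le_trans ?_ ((summ_of_bound m (fun k => hC k t)).2 k)
  exact mul_le_mul_of_nonneg_left (norm_le_pi_norm _ i) (pow_pos (pw_pos k) m).le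

lemma p_deriv {c : ℝ} {Q : Set K} {ψ : ℝ → ℝ} {u : K → ℝ → C3}
    (h : PSol c Q ψ u) (i : Fin 3) (k : K) (t : ℝ) (ht : 0 < t) :
    HasDerivAt (cf' u i k) ((ψ t : ℂ) * (chi Q k * dU c u i k t)) t := by
  by_cases hk : k ∈ Q
  · have h1 := (hasDerivAt_pi.1 (h.ode k hk t ht)) i
    rw [chi_mem hk, one_mul, ← RH_eq]
    rw [Pi.smul_apply, Complex.real_smul] at h1
    exact h1
  · have h1 : cf' u i k = fun _ => 0 := by
      funext s
      unfold cf'
      rw [h.zero k hk s]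
      rfl
    rw [h1, chi_not hk, zero_mul, mul_zero]
    exact hasDerivAt_const _ _

lemma p_TT {c : ℝ} {Q : Set K} {ψ : ℝ → ℝ} {u : K → ℝ → C3} (h1 : ContDiff ℝ ∞ ψ)
    (h2 : HasCompactSupport ψ) (h : PSol c Q ψ u) (n : ℕ) : ∀ i : Fin 3, TT n (cf' u i) := by
  have hc : ∀ i k, Continuous (cf' u i k) := fun i k => (continuous_apply i).comp (h.cf k)
  induction n with
  | zero => intro i; exact ⟨p_rd h i, hc i⟩
  | succ n ih =>
    intro i
    exact ⟨p_rd h i, hc i, fun k t => (ψ t : ℂ) * (chi Q k * dU c u i k t),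
      fun k t ht => p_deriv h i k t ht, TT.tmul h1 h2 (TT.mul (norm_chi Q) (TT_dU ih i))⟩

/-- The time change. -/
lemma exists_change {a b : ℝ} (ha : 0 < a) (hab : a < b) :
    ∃ (ψ φ : ℝ → ℝ) (b' : ℝ), ContDiff ℝ ∞ ψ ∧ HasCompactSupport ψ ∧ b' < b ∧ Continuous φ ∧
      (∀ t ∈ Icc 0 a, ψ t = 1) ∧ (∀ t ∈ Icc 0 a, φ t = t) ∧ (∀ t, 0 ≤ t → φ t ∈ Icc 0 b') ∧
      (∀ t, 0 < t → 0 < φ t) ∧ ∀ t, HasDerivAt φ (ψ t) t := by
  set b' : ℝ := (a + b) / 2 with hb'
  have hab' : a < b' := by rw [hb']; linarith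
  have hb'b : b' < b := by rw [hb']; linarith
  let f : ContDiffBump (0 : ℝ) := ⟨a, b', ha, hab'⟩
  have hf1 : ∀ t ∈ Icc 0 a, f t = 1 := by
    intro t ht
    refine f.one_of_mem_closedBall ?_
    rw [mem_closedBall_zero_iff, Real.norm_eq_abs, abs_of_nonneg ht.1]
    exact ht.2
  have hf0 : ∀ t, b' ≤ t → f t = 0 := by
    intro t ht
    refine f.zero_of_le_dist ?_
    rw [Real.dist_eq, sub_zero, abs_of_nonneg (by linarith)]
    exact ht
  have hfc : Continuous f := f.continuous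
  have hii : ∀ x y : ℝ, IntervalIntegrable f volume x y := fun x y => hfc.intervalIntegrable x y
  let φ : ℝ → ℝ := fun t => ∫ s in (0 : ℝ)..t, f s
  have hφd : ∀ t, HasDerivAt φ (f t) t := fun t =>
    intervalIntegral.integral_hasDerivAt_right (hii 0 t) (hfc.stronglyMeasurableAtFilter _ _)
      hfc.continuousAt
  have hφa : ∀ t ∈ Icc 0 a, φ t = t := by
    intro t ht
    have e : ∫ s in (0 : ℝ)..t, f s = ∫ _s in (0 : ℝ)..t, (1 : ℝ) := by
      refine intervalIntegral.integral_congr fun s hs => ?_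
      rw [uIcc_of_le ht.1] at hs
      exact hf1 s ⟨hs.1, hs.2.trans ht.2⟩
    show ∫ s in (0 : ℝ)..t, f s = t
    rw [e]; simp
  have hφ0 : ∀ x y : ℝ, x ≤ y → 0 ≤ ∫ s in x..y, f s := fun x y hxy =>
    intervalIntegral.integral_nonneg hxy fun s _ => f.nonneg
  have hadd : ∀ x y : ℝ, φ y = φ x + ∫ s in x..y, f s := fun x y =>
    (intervalIntegral.integral_add_adjacent_intervals (hii 0 x) (hii x y)).symm
  have hφle : ∀ t, 0 ≤ t → φ t ≤ t := by
    intro t ht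
    have h1 : ∫ s in (0 : ℝ)..t, f s ≤ ∫ _s in (0 : ℝ)..t, (1 : ℝ) :=
      intervalIntegral.integral_mono_on ht (hii 0 t) (by simp) fun s _ => f.le_one
    simpa using h1
  refine ⟨f, φ, b', f.contDiff, f.hasCompactSupport, hb'b,
    continuous_iff_continuousAt.2 fun t => (hφd t).continuousAt, hf1, hφa, ?_, ?_, hφd⟩
  · intro t ht
    refine ⟨hφ0 0 t ht, ?_⟩
    rcases le_total t b' with h | h
    · exact (hφle t ht).trans h
    · rw [hadd b' t]
      have e : ∫ s in b'..t, f s = ∫ _s in b'..t, (0 : ℝ) := by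
        refine intervalIntegral.integral_congr fun s hs => ?_
        rw [uIcc_of_le h] at hs
        exact hf0 s hs.1
      rw [e]
      simp only [intervalIntegral.integral_zero, add_zero]
      exact hφle b' (by linarith)
  · intro t ht
    rcases le_total t a with h | h
    · rw [hφa t ⟨ht.le, h⟩]; exact ht
    · rw [hadd a t, hφa a ⟨ha.le, le_rfl⟩]
      have := hφ0 a t h
      linarith

/-- A solution on `[0, b)` with a changed time. -/
lemma exists_psol {c a b : ℝ} {Q : Set K} {w : ℝ → K → C3} (ha : 0 < a) (hab : a < b)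
    (hw : TSol c b Q w) : ∃ (ψ : ℝ → ℝ) (u : K → ℝ → C3), ContDiff ℝ ∞ ψ ∧ HasCompactSupport ψ ∧
      PSol c Q ψ u ∧ (∀ t ∈ Icc 0 a, ψ t = 1) ∧ ∀ t ∈ Icc 0 a, ∀ k, u k t = w t k := by
  obtain ⟨ψ, φ, b', h1, h2, hb', hφc, hψ1, hφ1, hφm, hφp, hφd⟩ := exists_change ha hab
  have hm : ∀ t, φ (max t 0) ∈ Icc 0 b' := fun t => hφm _ (le_max_right _ _)
  have hm' : ∀ t, φ (max t 0) ∈ Ico 0 b := fun t => ⟨(hm t).1, (hm t).2.trans_lt hb'⟩
  refine ⟨ψ, fun k t => w (φ (max t 0)) k, h1, h2, ⟨?_, ?_, ?_, ?_, ?_, ?_⟩, hψ1, ?_⟩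
  · intro k
    exact (hw.cont k).comp_continuous (hφc.comp (continuous_id.max continuous_const)) hm'
  · exact fun k hk t => hw.supp _ (hm' t) k hk
  · exact fun t => (hw.fld _ (hm' t)).sym
  · exact fun k t => (hw.fld _ (hm' t)).div k
  · intro m
    obtain ⟨C, hC⟩ := hw.rap b' hb' m
    exact ⟨C, fun k t => hC _ (hm t) k⟩
  · intro k hk t ht
    have e1 := hw.ode (φ t) ⟨hφp t ht, (hφm t ht.le).2.trans_lt hb'⟩ k hk
    have e2 := HasDerivAt.scomp t e1 (hφd t)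
    have e3 : φ (max t 0) = φ t := by rw [max_eq_left ht.le]
    simp only [e3]
    refine e2.congr_of_eventuallyEq ?_
    filter_upwards [Ioi_mem_nhds ht] with s hs
    show w (φ (max s 0)) k = w (φ s) k
    rw [max_eq_left (le_of_lt hs)]
  · intro t ht k
    show w (φ (max t 0)) k = w t k
    rw [max_eq_left ht.1, hφ1 t ht]

end Pool.Agent.Y419.NS6
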