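import Pool.Agent.Y419.NS6.PhysA
import Pool.Agent.Y474.NSData

/-!
From the Fourier side to the physical side on `[0, T)`, part 2 (job PHYSQ of helper6; follows
`phys_of` of `Pool.Agent.Y154.NS.Phys`).
-/

open MeasureTheory Set Filter Topology
open scoped ENNReal NNReal ContDiff ComplexConjugate

set_option autoImplicit false

namespace Pool.Agent.Y419.NS6

open Pool.Agent.H356R3.NS hiding K sq
open Pool.Agent.Y6 Pool.Agent.Y154.NS

lemma GS0 (d : SFam) (t : ℝ) (x : E3) : GS 0 d t x = SF d (t, x) := by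
  unfold GS
  rw [smul_zero, sub_zero]

/-- the velocity of a family -/
noncomputable def UU (u : K → ℝ → C3) (t : ℝ) (x : R3) (i : Fin 3) : ℝ := (GS 0 (cf' u i) t x).re

/-- the pressure of a family -/
noncomputable def PP (u : K → ℝ → C3) (t : ℝ) (x : R3) : ℝ := (GS 0 (PF u) t x).re

lemma UU_congr {u w : K → ℝ → C3} {t : ℝ} (h : ∀ k, u k t = w k t) : UU u t = UU w t := by
  funext x i
  unfold UU
  rw [GS0, GS0]
  unfold SF cf'
  simp only [h]

lemma PP_congr {u w : K → ℝ → C3} {t : ℝ} (h : ∀ k, u k t = w k t) : PP u t = PP w t := by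
  funext x
  unfold PP
  rw [GS0, GS0]
  unfold SF PF cvv cf'
  simp only [h]

section

variable {ν : ℝ} {Q : Set K} {ψ : ℝ → ℝ} {u : K → ℝ → C3} (h1 : ContDiff ℝ ∞ ψ)
  (h2 : HasCompactSupport ψ) (h : PSol (4 * Real.pi ^ 2 * ν) Q ψ u)

include h in
lemma fc_UU (t : ℝ) (k : K) : fc (UU u t) k = u k t := by
  funext i
  rw [fc_eq]
  unfold UU
  simp only [GS0]
  rw [int_SF_re (p_rd h i)]
  have h3 : cf' u i (-k) t = star (cf' u i k t) := h.sym t k i
  rw [h3, star_star]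
  unfold cf'
  ring

include h1 h2 h in
lemma smooth_UU : ContDiffOn ℝ ∞ (fun z : ℝ × R3 => UU u z.1 z.2) (Ici 0 ×ˢ univ) := by
  rw [contDiffOn_pi]
  intro i
  exact GS_smooth_re 0 fun n => p_TT h1 h2 h n i

include h1 h2 h in
lemma smooth_PP : ContDiffOn ℝ ∞ (fun z : ℝ × R3 => PP u z.1 z.2) (Ici 0 ×ˢ univ) :=
  GS_smooth_re 0 fun n => TT_PF (p_TT h1 h2 h n)

include h1 h2 h in
lemma div_UU {t : ℝ} (ht : 0 ≤ t) (x : R3) : ∑ i, pd i (fun y => UU u t y i) x = 0 := by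
  have e1 : ∀ i, pd i (fun y => UU u t y i) x = (GS 0 (dS i (cf' u i)) t x).re :=
    fun i => pd_GS' 0 (p_TT h1 h2 h 1 i) ht i x
  simp only [e1]
  rw [← Complex.re_sum]
  have : ∑ i, GS 0 (dS i (cf' u i)) t x = 0 := by
    unfold GS
    rw [← SF_sum fun i => ((p_TT h1 h2 h 0 i).dS i).rd]
    have h0 : (fun k t => ∑ j, dS j (cf' u j) k t) = fun _ _ => (0 : ℂ) := by
      funext k t
      have := h.div k t
      unfold dt at this
      unfold dS fj cf'
      calc ∑ j, 2 * Real.pi * Complex.I * (k j : ℂ) * u k t j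
          = 2 * Real.pi * Complex.I * ∑ j, (k j : ℂ) * u k t j := by
            rw [Finset.mul_sum]; exact Finset.sum_congr rfl fun j _ => by ring
        _ = 0 := by rw [this, mul_zero]
    rw [h0]
    simp [SF]
  rw [this]; rfl

/-- the time derivative -/
noncomputable def DT (ν : ℝ) (Q : Set K) (ψ : ℝ → ℝ) (u : K → ℝ → C3) (t : ℝ) (x : R3) (i : Fin 3) :
    ℝ := (GS 0 (fun k t => (ψ t : ℂ) * (chi Q k * dU (4 * Real.pi ^ 2 * ν) u i k t)) t x).re

include h1 h2 h in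
lemma dt_UU {t : ℝ} (ht : 0 ≤ t) (x : R3) (i : Fin 3) :
    HasDerivWithinAt (fun s => UU u s x i) (DT ν Q ψ u t x i) (Ici 0) t := by
  have hT : ∀ n i, TT n (cf' u i) := fun n i => p_TT h1 h2 h n i
  have hdT : ∀ n i, TT n (fun k t => (ψ t : ℂ) * (chi Q k * dU (4 * Real.pi ^ 2 * ν) u i k t)) :=
    fun n i => TT.tmul h1 h2 (TT.mul (norm_chi Q) (TT_dU (hT n) i))
  have e1 := GS_dt 0 (hT 1 i) (fun k t ht => p_deriv h i k t ht) (hdT 0 i) ht x
  have e2 := Complex.reCLM.hasFDerivAt.comp_hasDerivWithinAt t e1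
  refine e2.congr_deriv ?_
  show (GS 0 _ t x + ∑ j, GS 0 (dS j (cf' u i)) t x * (-((0 : E3) j) : ℝ)).re = _
  unfold DT
  simp

include h1 h2 h in
lemma mom_UU (hQ : ∀ k ∈ Q, -k ∈ Q) {t : ℝ} (ht : 0 ≤ t) (hψ : ψ t = 1) {k : K} (hk : k ∈ Q) :
    fc (fun x i => DT ν Q ψ u t x i + ∑ j, UU u t x j * pd j (fun y => UU u t y i) x
      - ν * ∑ j, pd j (pd j fun y => UU u t y i) x + pd i (PP u t) x) k = 0 := by
  set c : ℝ := 4 * Real.pi ^ 2 * ν with hc
  have hT : ∀ n i, TT n (cf' u i) := fun n i => p_TT h1 h2 h n i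
  have hP : ∀ n, TT n (PF u) := fun n => TT_PF (hT n)
  have hdT : ∀ n i, TT n (fun k t => (ψ t : ℂ) * (chi Q k * dU c u i k t)) := fun n i =>
    TT.tmul h1 h2 (TT.mul (norm_chi Q) (TT_dU (hT n) i))
  have hsym : ∀ i k t, cf' u i (-k) t = star (cf' u i k t) := fun i k t => h.sym t k i
  have hdiv := h.div
  have hre : ∀ i t x, (GS 0 (cf' u i) t x).im = 0 := fun i t x => SF_real (hsym i) _
  funext i
  rw [fc_eq]
  set r : SFam := fun k t => ((ψ t : ℂ) * (chi Q k * dU c u i k t)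
      + ∑ j, cvv (cf' u j) (dS j (cf' u i)) k t)
    + ((-(ν : ℂ)) * ∑ j, dS j (dS j (cf' u i)) k t + 1 * dS i (PF u) k t) with hr
  have hU : ∀ i, RD (cf' u i) := fun i => (hT 0 i).rd
  have hdS : ∀ j, RD (dS j (cf' u i)) := fun j => ((hT 0 i).dS j).rd
  have hdd : ∀ j, RD (dS j (dS j (cf' u i))) := fun j => (((hT 0 i).dS j).dS j).rd
  have hdP : RD (dS i (PF u)) := ((hP 0).dS i).rd
  have hcv : ∀ j, RD (cvv (cf' u j) (dS j (cf' u i))) := fun j => (hU j).conv (hdS j)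
  have hsum1 : RD fun k t => ∑ j, cvv (cf' u j) (dS j (cf' u i)) k t :=
    (TT.sum (n := 0) Finset.univ fun j _ => (hT 0 j).conv ((hT 0 i).dS j)).rd
  have hsum2 : RD fun k t => ∑ j, dS j (dS j (cf' u i)) k t :=
    (TT.sum (n := 0) Finset.univ fun j _ => ((hT 0 i).dS j).dS j).rd
  have hone : ∀ (z : ℂ) {c : SFam}, RD c → RD fun k t => z * c k t := fun z c hc =>
    hc.mul (C := ‖z‖) (r := 0) (p := fun _ => z) fun k => by simp
  have hrd : RD r := ((hdT 0 i).rd.add hsum1).add ((hone _ hsum2).add (hone _ hdP))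
  have hres : ∀ x : E3, DT ν Q ψ u t x i
      + ∑ j, UU u t x j * pd j (fun y => UU u t y i) x
      - ν * ∑ j, pd j (pd j fun y => UU u t y i) x
      + pd i (PP u t) x = (SF r (t, x)).re := by
    intro x
    have e1 : ∀ j, pd j (fun y => UU u t y i) = fun x => (GS 0 (dS j (cf' u i)) t x).re :=
      fun j => funext fun x => pd_GS' 0 (hT 1 i) ht j x
    have e2 : ∀ j, pd j (fun x => (GS 0 (dS j (cf' u i)) t x).re) x
        = (GS 0 (dS j (dS j (cf' u i))) t x).re :=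
      fun j => pd_GS' 0 ((hT 1 i).dS j) ht j x
    have e3 : pd i (PP u t) x = (GS 0 (dS i (PF u)) t x).re :=
      pd_GS' 0 (hP 1) ht i x
    have e4 : ∀ j, UU u t x j = (GS 0 (cf' u j) t x).re := fun j => rfl
    simp only [e1, e2, e3, e4, DT]
    have key : SF r (t, x) = (SF (fun k t => (ψ t : ℂ) * (chi Q k * dU c u i k t)) (t, x)
        + ∑ j, SF (cf' u j) (t, x) * SF (dS j (cf' u i)) (t, x))
        + ((-(ν : ℂ)) * ∑ j, SF (dS j (dS j (cf' u i))) (t, x) + 1 * SF (dS i (PF u)) (t, x)) := by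
      have m1 : ∀ j, SF (cf' u j) (t, x) * SF (dS j (cf' u i)) (t, x)
          = SF (cvv (cf' u j) (dS j (cf' u i))) (t, x) := fun j => SF_mul (hU j) (hdS j) _
      simp only [m1]
      rw [← SF_sum hcv, ← SF_sum hdd, ← SF_const_mul, ← SF_const_mul, ← SF_add (hdT 0 i).rd hsum1,
        ← SF_add (hone _ hsum2) (hone _ hdP), ← SF_add ((hdT 0 i).rd.add hsum1)
        ((hone _ hsum2).add (hone _ hdP))]
    have hre' : ∀ j, (SF (cf' u j) (t, x)).im = 0 := fun j => by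
      have := hre j t x
      rwa [GS0] at this
    rw [key]
    simp only [GS0]
    simp only [Complex.add_re, Complex.re_sum, Complex.mul_re, hre', Complex.ofReal_re,
      Complex.ofReal_im, Complex.neg_re, Complex.neg_im,
      neg_zero, zero_mul, sub_zero, Complex.one_re, Complex.one_im, one_mul]
    ring
  simp only [hres]
  rw [int_SF_re hrd]
  have hz : ∀ l ∈ Q, r l t = 0 := by
    intro l hl
    have h1 := fourier_eq (ν := ν) hU hdiv i l t
    simp only [hr]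
    rw [hψ, chi_mem hl, Complex.ofReal_one, one_mul, one_mul, h1]
    ring
  rw [hz k hk, hz _ (hQ k hk)]
  simp

end

theorem t_physQ : St_physQ := by
  intro ν Q T v w hν hQ h0 hT hv hvQ hw hw0
  set wf : K → ℝ → C3 := fun k t => w t k with hwf
  -- localisation
  have loc : ∀ t ∈ tI T, ∃ (a b : ℝ) (ψ : ℝ → ℝ) (u : K → ℝ → C3), t < a ∧ a < b ∧ (b : EReal) ≤ T ∧
      ContDiff ℝ ∞ ψ ∧ HasCompactSupport ψ ∧ PSol (4 * Real.pi ^ 2 * ν) Q ψ u ∧
      (∀ s ∈ Icc 0 a, ψ s = 1) ∧ ∀ s ∈ Icc 0 a, ∀ k, u k s = wf k s := by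
    intro t ht
    obtain ⟨b, hb1, hb2⟩ := EReal.lt_iff_exists_real_btwn.1 ht.2
    have hb1' : t < b := by exact_mod_cast hb1
    have ht0 : 0 ≤ t := ht.1
    obtain ⟨ψ, u, g1, g2, g3, g4, g5⟩ := exists_psol (a := (t + b) / 2) (b := b) (by linarith)
      (by linarith) (hw b hb2.le)
    exact ⟨(t + b) / 2, b, ψ, u, by linarith, by linarith, hb2.le, g1, g2, g3, g4, g5⟩
  have heqU : ∀ {a : ℝ} {u : K → ℝ → C3}, (∀ s ∈ Icc 0 a, ∀ k, u k s = wf k s) →
      ∀ s ∈ Icc 0 a, UU wf s = UU u s := fun hu s hs => (UU_congr (hu s hs)).symm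
  have heqP : ∀ {a : ℝ} {u : K → ℝ → C3}, (∀ s ∈ Icc 0 a, ∀ k, u k s = wf k s) →
      ∀ s ∈ Icc 0 a, PP wf s = PP u s := fun hu s hs => (PP_congr (hu s hs)).symm
  have hsub : tI T ⊆ Ici 0 := fun t ht => ht.1
  have hfc : ∀ t ∈ tI T, fc (UU wf t) = w t := by
    intro t ht
    obtain ⟨a, b, ψ, u, hta, hab, hbT, g1, g2, g3, g4, g5⟩ := loc t ht
    have hI : t ∈ Icc 0 a := ⟨ht.1, hta.le⟩
    rw [heqU g5 t hI]
    funext k
    rw [fc_UU g3, g5 t hI]
  refine ⟨UU wf, PP wf, ⟨?_, ?_, ?_, ?_, ?_, ?_, ?_, ?_⟩, hfc⟩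
  · rintro ⟨t, x⟩ ⟨ht, -⟩
    obtain ⟨a, b, ψ, u, hta, hab, hbT, g1, g2, g3, g4, g5⟩ := loc t ht
    have e1 : ContDiffWithinAt ℝ ∞ (fun z : ℝ × R3 => UU u z.1 z.2) (tI T ×ˢ univ) (t, x) :=
      (smooth_UU g1 g2 g3 (t, x) ⟨ht.1, mem_univ _⟩).mono (prod_mono hsub subset_rfl)
    refine e1.congr_of_eventuallyEq ?_ ?_
    · have e2 : {z : ℝ × R3 | z.1 < a} ∈ 𝓝 (t, x) :=
        (isOpen_lt continuous_fst continuous_const).mem_nhds hta
      filter_upwards [mem_nhdsWithin_of_mem_nhds e2, self_mem_nhdsWithin] with z hz hz2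
      rw [heqU g5 z.1 ⟨hz2.1.1, le_of_lt hz⟩]
    · rw [heqU g5 t ⟨ht.1, hta.le⟩]
  · rintro ⟨t, x⟩ ⟨ht, -⟩
    obtain ⟨a, b, ψ, u, hta, hab, hbT, g1, g2, g3, g4, g5⟩ := loc t ht
    have e1 : ContDiffWithinAt ℝ ∞ (fun z : ℝ × R3 => PP u z.1 z.2) (tI T ×ˢ univ) (t, x) :=
      (smooth_PP g1 g2 g3 (t, x) ⟨ht.1, mem_univ _⟩).mono (prod_mono hsub subset_rfl)
    refine e1.congr_of_eventuallyEq ?_ ?_
    · have e2 : {z : ℝ × R3 | z.1 < a} ∈ 𝓝 (t, x) :=
        (isOpen_lt continuous_fst continuous_const).mem_nhds hta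
      filter_upwards [mem_nhdsWithin_of_mem_nhds e2, self_mem_nhdsWithin] with z hz hz2
      rw [heqP g5 z.1 ⟨hz2.1.1, le_of_lt hz⟩]
    · rw [heqP g5 t ⟨ht.1, hta.le⟩]
  · intro t _ x j
    funext i
    unfold UU
    rw [GS_periodic]
  · intro t _ x j
    unfold PP
    rw [GS_periodic]
  · intro t ht k hk
    rw [hfc t ht]
    obtain ⟨a, b, ψ, u, hta, hab, hbT, -⟩ := loc t ht
    exact (hw b hbT).supp t ⟨ht.1, by linarith⟩ k hk
  · intro t ht k hk
    obtain ⟨a, b, ψ, u, hta, hab, hbT, g1, g2, g3, g4, g5⟩ := loc t ht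
    have hI : t ∈ Icc 0 a := ⟨ht.1, hta.le⟩
    have hUD : UniqueDiffWithinAt ℝ (tI T) t := by
      have e1 : Ico 0 b ⊆ tI T := by
        intro s hs
        refine ⟨hs.1, lt_of_lt_of_le ?_ hbT⟩
        exact_mod_cast hs.2
      exact (uniqueDiffOn_Ico 0 b t ⟨ht.1, by linarith⟩).mono e1
    have hder : ∀ x i, derivWithin (fun s => UU wf s x i) (tI T) t = DT ν Q ψ u t x i := by
      intro x i
      have e1 := (dt_UU g1 g2 g3 ht.1 x i).mono hsub
      have e2 : HasDerivWithinAt (fun s => UU wf s x i) (DT ν Q ψ u t x i) (tI T) t := by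
        refine e1.congr_of_eventuallyEq ?_ ?_
        · filter_upwards [mem_nhdsWithin_of_mem_nhds (Iio_mem_nhds hta), self_mem_nhdsWithin] with s hs hs2
          rw [heqU g5 s ⟨hs2.1, le_of_lt hs⟩]
        · rw [heqU g5 t hI]
      exact e2.derivWithin hUD
    have e3 := mom_UU g1 g2 g3 hQ ht.1 (g4 t hI) hk
    simp only [hder, heqU g5 t hI, heqP g5 t hI]
    exact e3
  · intro t ht x
    obtain ⟨a, b, ψ, u, hta, hab, hbT, g1, g2, g3, g4, g5⟩ := loc t ht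
    rw [heqU g5 t ⟨ht.1, hta.le⟩]
    exact div_UU g1 g2 g3 ht.1 x
  · funext x i
    unfold UU
    rw [GS0]
    unfold SF cf'
    simp only [hwf, hw0]
    exact ((Pool.Agent.Y474.NSData.t_data v hv).2.2.2 x i).symm

end Pool.Agent.Y419.NS6
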